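import Pool.Agent.N539.T.FD

set_option autoImplicit false

/-!
Project T, task F0: Fourier transforms of a weight minus its density at low frequencies.
-/

namespace Pool.Agent.N539.T

open Finset MeasureTheory Filter Topology
open scoped ENNReal
open Pool.Agent.H376R2.MR (er)
open Pool.Agent.N798.T

theorem ii_g (e : ℕ) (p q : ℝ) (hp : 1 < p) (hq : 1 < q) :
    IntervalIntegrable (fun u : ℝ => 1 / (Real.log u) ^ e) volume p q := by
  refine ContinuousOn.intervalIntegrable ?_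
  refine ContinuousOn.div continuousOn_const ?_ ?_
  · refine ContinuousOn.pow ?_ _
    refine Real.continuousOn_log.mono ?_
    intro x hx
    have : min p q ≤ x := hx.1
    have h2 : 1 < min p q := lt_min hp hq
    simp only [Set.mem_compl_iff, Set.mem_singleton_iff]
    intro h; rw [h] at this; linarith
  · intro x hx
    have : min p q ≤ x := hx.1
    have h2 : 1 < min p q := lt_min hp hq
    have h3 : 0 < Real.log x := Real.log_pos (lt_of_lt_of_le h2 this)
    exact pow_ne_zero _ h3.ne'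

/-- dyadic blocks -/
theorem blocks (a : ℕ → ℂ) (e K : ℕ) (C : ℝ) (hC : 0 ≤ C)
    (h : ∀ N N' : ℕ, 2 ≤ N → N ≤ N' → N' ≤ 2 * N →
      ‖∑ n ∈ Ioc N N', a n - ((∫ u in (N : ℝ)..N', 1 / (Real.log u) ^ e : ℝ) : ℂ)‖ ≤
        C * N / (Real.log N) ^ K) :
    ∀ (k N N' : ℕ), 2 ≤ N → N ≤ N' → N' ≤ 2 ^ k * N →
      ‖∑ n ∈ Ioc N N', a n - ((∫ u in (N : ℝ)..N', 1 / (Real.log u) ^ e : ℝ) : ℂ)‖ ≤
        k * C * N' / (Real.log N) ^ K := by
  intro k
  induction k with
  | zero =>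
    intro N N' h2 h3 h4
    have : N' = N := le_antisymm (by simpa using h4) h3
    subst this
    simp
  | succ k ih =>
    intro N N' h2 h3 h4
    have hN1 : (1 : ℝ) < N := by exact_mod_cast h2
    have hl : 0 < Real.log N := Real.log_pos hN1
    rcases le_or_gt N' (2 ^ k * N) with h5 | h5
    · refine (ih N N' h2 h3 h5).trans ?_
      have h6 : (0 : ℝ) ≤ C * N' / (Real.log N) ^ K := by positivity
      have e1 : ((k + 1 : ℕ) : ℝ) * C * N' / (Real.log N) ^ K =
          k * C * N' / (Real.log N) ^ K + C * N' / (Real.log N) ^ K := by push_cast; ring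
      rw [e1]; linarith
    · obtain ⟨M, hM⟩ : ∃ M, M = 2 ^ k * N := ⟨_, rfl⟩
      rw [← hM] at h5
      have hNM : N ≤ M := by rw [hM]; exact Nat.le_mul_of_pos_left _ (by positivity)
      have hM1 : (1 : ℝ) < M := by exact_mod_cast (lt_of_lt_of_le h2 hNM)
      have hN'1 : (1 : ℝ) < N' := lt_trans hM1 (by exact_mod_cast h5)
      have i1 := ih N M h2 hNM (le_of_eq hM)
      have i2 := h M N' (h2.trans hNM) h5.le (by rw [pow_succ] at h4; rw [hM]; linarith)
      have s1 : ∑ n ∈ Ioc N N', a n = ∑ n ∈ Ioc N M, a n + ∑ n ∈ Ioc M N', a n :=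
        (Finset.sum_Ioc_consecutive a hNM h5.le).symm
      have s2 : ∫ u in (N : ℝ)..N', 1 / (Real.log u) ^ e =
          (∫ u in (N : ℝ)..M, 1 / (Real.log u) ^ e) + ∫ u in (M : ℝ)..N', 1 / (Real.log u) ^ e :=
        (intervalIntegral.integral_add_adjacent_intervals (ii_g e _ _ hN1 hM1)
          (ii_g e _ _ hM1 hN'1)).symm
      have s3 : ∑ n ∈ Ioc N N', a n - ((∫ u in (N : ℝ)..N', 1 / (Real.log u) ^ e : ℝ) : ℂ) =
          (∑ n ∈ Ioc N M, a n - ((∫ u in (N : ℝ)..M, 1 / (Real.log u) ^ e : ℝ) : ℂ)) +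
          (∑ n ∈ Ioc M N', a n - ((∫ u in (M : ℝ)..N', 1 / (Real.log u) ^ e : ℝ) : ℂ)) := by
        rw [s1, s2]; push_cast; ring
      rw [s3]
      refine (norm_add_le _ _).trans ?_
      have hMN' : (M : ℝ) ≤ N' := by exact_mod_cast h5.le
      have hNM' : (N : ℝ) ≤ M := by exact_mod_cast hNM
      have e1 : ((k + 1 : ℕ) : ℝ) * C * N' / (Real.log N) ^ K =
          k * C * N' / (Real.log N) ^ K + C * N' / (Real.log N) ^ K := by push_cast; ring
      rw [e1]
      refine add_le_add (i1.trans ?_) (i2.trans ?_)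
      · gcongr
      · have : Real.log N ≤ Real.log M := Real.log_le_log (by linarith) hNM'
        gcongr

theorem piece_exp (F : ℤ → ℂ) (p q : ℝ) (hpq : p ≤ q) (m : ℤ) (h1 : (m : ℝ) ≤ Real.exp p)
    (h2 : Real.exp q ≤ m + 1) :
    ∫ t in p..q, F ⌊Real.exp t⌋ * ((Real.exp t : ℝ) : ℂ) = F m * ((Real.exp q - Real.exp p : ℝ) : ℂ) := by
  have hcg : ∫ t in p..q, F ⌊Real.exp t⌋ * ((Real.exp t : ℝ) : ℂ) =
      ∫ t in p..q, F m * ((Real.exp t : ℝ) : ℂ) := by
    rw [intervalIntegral.integral_of_le hpq, intervalIntegral.integral_of_le hpq,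
      integral_Ioc_eq_integral_Ioo, integral_Ioc_eq_integral_Ioo]
    refine setIntegral_congr_fun measurableSet_Ioo fun y hy => ?_
    have e1 : (m : ℝ) ≤ Real.exp y := h1.trans (Real.exp_le_exp.2 hy.1.le)
    have e2 : Real.exp y < m + 1 := lt_of_lt_of_le (Real.exp_lt_exp.2 hy.2) h2
    have e3 : ⌊Real.exp y⌋ = m := Int.floor_eq_iff.2 ⟨e1, e2⟩
    simp only [e3]
  rw [hcg, intervalIntegral.integral_const_mul, intervalIntegral.integral_ofReal, integral_exp]

theorem ii_exp (F : ℤ → ℂ) (hF : ∀ n, ‖F n‖ ≤ 1) (p q : ℝ) :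
    IntervalIntegrable (fun t => F ⌊Real.exp t⌋ * ((Real.exp t : ℝ) : ℂ)) volume p q := by
  have hm : Measurable (fun t => F ⌊Real.exp t⌋ * ((Real.exp t : ℝ) : ℂ)) := by
    refine Measurable.mul ?_ (Complex.measurable_ofReal.comp Real.measurable_exp)
    exact (measurable_from_top (f := F)).comp (Int.measurable_floor.comp Real.measurable_exp)
  have hc : IntervalIntegrable (fun t : ℝ => Real.exp t) volume p q :=
    Real.continuous_exp.intervalIntegrable _ _
  refine hc.mono_fun hm.aestronglyMeasurable ?_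
  refine Filter.Eventually.of_forall fun y => ?_
  simp only [norm_mul, Complex.norm_real]
  calc ‖F ⌊Real.exp y⌋‖ * ‖Real.exp y‖ ≤ 1 * ‖Real.exp y‖ := by gcongr; exact hF _
    _ = ‖Real.exp y‖ := one_mul _

theorem step_sum (a : ℕ → ℂ) (ha : ∀ n, ‖a n‖ ≤ 1) (b : ℤ) (N : ℕ) (hn : 0 < (N : ℝ) + 1 - b) : ∀ k : ℕ,
    ∫ t in Real.log (N + 1 - b)..Real.log (N + 1 - b + k),
      (fun n : ℤ => a ((n + b).toNat)) ⌊Real.exp t⌋ * ((Real.exp t : ℝ) : ℂ) = ∑ n ∈ Ioc N (N + k), a n := by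
  intro k
  induction k with
  | zero => simp
  | succ k ih =>
    have hp1 : (0 : ℝ) < N + 1 - b + k := by positivity
    have hp2 : (0 : ℝ) < N + 1 - b + (k + 1 : ℕ) := by positivity
    have hle : Real.log (N + 1 - b + k) ≤ Real.log (N + 1 - b + (k + 1 : ℕ)) :=
      Real.log_le_log hp1 (by push_cast; linarith)
    rw [← intervalIntegral.integral_add_adjacent_intervals
      (ii_exp (fun n : ℤ => a ((n + b).toNat)) (fun n => ha _) (Real.log (N + 1 - b)) (Real.log (N + 1 - b + k)))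
      (ii_exp (fun n : ℤ => a ((n + b).toNat)) (fun n => ha _) _ _), ih]
    rw [piece_exp (fun n : ℤ => a ((n + b).toNat)) _ _ hle ((N : ℤ) + 1 - b + k)
      (by rw [Real.exp_log hp1]; push_cast; rfl) (by rw [Real.exp_log hp2]; push_cast; linarith)]
    rw [Real.exp_log hp1, Real.exp_log hp2]
    have e1 : ((N : ℤ) + 1 - b + k + b).toNat = N + k + 1 := by
      have : (N : ℤ) + 1 - b + k + b = ((N + k + 1 : ℕ) : ℤ) := by push_cast; ring
      rw [this, Int.toNat_natCast]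
    simp only [e1]
    rw [← add_assoc, Finset.sum_Ioc_succ_top (by omega)]
    congr 1
    push_cast
    ring

theorem g_le (e : ℕ) (u : ℝ) (hu : Real.exp 1 ≤ u) : ‖1 / (Real.log u) ^ e‖ ≤ 1 := by
  have h1 : 1 ≤ Real.log u := by
    rw [Real.le_log_iff_exp_le (lt_of_lt_of_le (Real.exp_pos 1) hu)]
    exact hu
  have h2 : (1 : ℝ) ≤ (Real.log u) ^ e := one_le_pow₀ h1
  rw [Real.norm_eq_abs, abs_of_nonneg (by positivity), div_le_one (by positivity)]
  exact h2

theorem g_int (e : ℕ) (p q : ℝ) (hp : Real.exp 1 ≤ p) (hq : Real.exp 1 ≤ q) :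
    |∫ u in p..q, 1 / (Real.log u) ^ e| ≤ |q - p| := by
  have h := intervalIntegral.norm_integral_le_of_norm_le_const (a := p) (b := q) (C := 1)
    (f := fun u : ℝ => 1 / (Real.log u) ^ e) (by
      intro x hx
      refine g_le e x ?_
      have : min p q < x := by
        rcases le_total p q with h | h
        · rw [Set.uIoc_of_le h] at hx
          rw [min_eq_left h]; exact hx.1
        · rw [Set.uIoc_of_ge h] at hx
          rw [min_eq_right h]; exact hx.1
      exact (le_min hp hq).trans this.le)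
  rw [one_mul] at h
  exact h

theorem B_bound (a : ℕ → ℂ) (e : ℕ) (hW : Wt a e) (b : ℤ) (K : ℕ) (R : ℝ) :
    ∃ D Y0 : ℝ, 0 ≤ D ∧ 1 ≤ Y0 ∧ ∀ Y y1 y : ℝ, Y0 ≤ Y → Y ≤ y1 → y1 ≤ y → y ≤ Y + R →
      ‖∫ t in y1..y, (a (vl b (Real.exp t)) - ((1 / t ^ e : ℝ) : ℂ)) * ((Real.exp t : ℝ) : ℂ)‖ ≤
        D * Real.exp y / Y ^ K := by
  obtain ⟨C, hC⟩ := hW.mn K
  obtain ⟨k, hk⟩ := pow_unbounded_of_one_lt (4 * Real.exp R) (one_lt_two)
  have hbl := blocks a e K |C| (abs_nonneg C) (by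
    intro N N' h1 h2 h3
    refine (hC N N' h1 h2 h3).trans ?_
    have : 0 < Real.log N := Real.log_pos (by exact_mod_cast h1)
    gcongr
    exact le_abs_self C) k
  have hb0 : (0 : ℝ) ≤ |(b : ℝ)| := abs_nonneg _
  refine ⟨(2 * |(b : ℝ)| + 6) * K.factorial + k * |C| * 2 * 2 ^ K, 2 * |(b : ℝ)| + 4, by positivity,
    by linarith, ?_⟩
  intro Y y1 y hY h1 h2 h3
  have hY4 : 4 ≤ Y := by linarith
  have hY0 : 0 < Y := by linarith
  -- sizes
  have eY : Y + 1 ≤ Real.exp Y := Real.add_one_le_exp Y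
  have ey1 : Real.exp Y ≤ Real.exp y1 := Real.exp_le_exp.2 h1
  have ey : Real.exp y1 ≤ Real.exp y := Real.exp_le_exp.2 h2
  obtain ⟨p, hp⟩ : ∃ p, p = ⌊Real.exp y1⌋ := ⟨_, rfl⟩
  obtain ⟨q, hq⟩ : ∃ q, q = ⌊Real.exp y⌋ := ⟨_, rfl⟩
  have p1 : (p : ℝ) ≤ Real.exp y1 := by rw [hp]; exact Int.floor_le _
  have p2 : Real.exp y1 < p + 1 := by rw [hp]; exact Int.lt_floor_add_one _
  have q1 : (q : ℝ) ≤ Real.exp y := by rw [hq]; exact Int.floor_le _
  have q2 : Real.exp y < q + 1 := by rw [hq]; exact Int.lt_floor_add_one _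
  have hpq : p ≤ q := by rw [hp, hq]; exact Int.floor_le_floor ey
  have bb1 : (b : ℝ) ≤ |(b : ℝ)| := le_abs_self _
  have bb2 : -|(b : ℝ)| ≤ b := neg_abs_le _
  have hlow : Real.exp Y / 2 ≤ (p : ℝ) + b - 1 := by linarith
  have hpb : 0 ≤ p + b - 1 := by
    have : (0 : ℝ) ≤ (p : ℝ) + b - 1 := by
      refine le_trans ?_ hlow
      positivity
    exact_mod_cast this
  obtain ⟨N, hN⟩ : ∃ N : ℕ, (N : ℤ) = p + b - 1 := ⟨(p + b - 1).toNat, Int.toNat_of_nonneg hpb⟩
  obtain ⟨n, hn⟩ : ∃ n : ℕ, (n : ℤ) = q - p := ⟨(q - p).toNat, Int.toNat_of_nonneg (by omega)⟩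
  have hNr : (N : ℝ) = p + b - 1 := by exact_mod_cast hN
  have hnr : (n : ℝ) = q - p := by exact_mod_cast hn
  have hNl : Real.exp Y / 2 ≤ N := by rw [hNr]; exact hlow
  have hhalf : Real.exp (Y / 2) ≤ Real.exp Y / 2 := by
    have e1 : Real.exp Y = Real.exp (Y / 2) * Real.exp (Y / 2) := by
      rw [← Real.exp_add]; congr 1; ring
    have e2 : Y / 2 + 1 ≤ Real.exp (Y / 2) := Real.add_one_le_exp _
    have e3 : 2 ≤ Real.exp (Y / 2) := by linarith
    rw [e1]
    nlinarith [Real.exp_pos (Y / 2)]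
  have hNhalf : Real.exp (Y / 2) ≤ N := hhalf.trans hNl
  have hNlog : Y / 2 ≤ Real.log N := by
    rw [Real.le_log_iff_exp_le (lt_of_lt_of_le (Real.exp_pos _) hNhalf)]
    exact hNhalf
  have hN2 : 2 ≤ N := by
    have e2 : Y / 2 + 1 ≤ Real.exp (Y / 2) := Real.add_one_le_exp _
    have : (2 : ℝ) ≤ N := by linarith
    exact_mod_cast this
  have he1 : Real.exp 1 ≤ Real.exp (Y / 2) := Real.exp_le_exp.2 (by linarith)
  have hx0 : (0 : ℝ) < p := by
    have : (0 : ℝ) < Real.exp Y / 2 := by positivity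
    linarith
  have hq0 : (0 : ℝ) < q := lt_of_lt_of_le hx0 (by exact_mod_cast hpq)
  have hN'r : ((N + n : ℕ) : ℝ) = q + b - 1 := by push_cast; rw [hNr, hnr]; ring
  have hN'le : ((N + n : ℕ) : ℝ) ≤ 2 * Real.exp y := by
    rw [hN'r]; linarith
  -- blocks
  have hB := hbl N (N + n) hN2 (by omega) (by
    have : ((N + n : ℕ) : ℝ) ≤ 2 ^ k * N := by
      calc ((N + n : ℕ) : ℝ) ≤ 2 * Real.exp y := hN'le
        _ ≤ 2 * Real.exp (Y + R) := by gcongr
        _ = (4 * Real.exp R) * (Real.exp Y / 2) := by rw [Real.exp_add]; ring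
        _ ≤ 2 ^ k * N := by gcongr
    exact_mod_cast this)
  -- the step part
  have hlp : Real.exp (Real.log p) = p := Real.exp_log hx0
  have hlq : Real.exp (Real.log q) = q := Real.exp_log hq0
  have c1 : Real.log p ≤ y1 := by rw [← Real.exp_le_exp, hlp]; exact p1
  have c2 : Real.log q ≤ y := by rw [← Real.exp_le_exp, hlq]; exact q1
  obtain ⟨F, hF⟩ : ∃ F : ℤ → ℂ, F = fun n : ℤ => a ((n + b).toNat) := ⟨_, rfl⟩
  have hF1 : ∀ n, ‖F n‖ ≤ 1 := by intro n; rw [hF]; exact hW.le_one _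
  have j1 := piece_exp F (Real.log p) y1 c1 p (le_of_eq hlp.symm) p2.le
  have j2 := piece_exp F (Real.log q) y c2 q (le_of_eq hlq.symm) q2.le
  have j3 := step_sum a hW.le_one b N (by rw [hNr]; linarith) n
  have ee1 : (N : ℝ) + 1 - b = p := by rw [hNr]; ring
  rw [ee1, show (p : ℝ) + n = q by rw [hnr]; ring, ← hF] at j3
  have j4 : ∫ t in y1..y, F ⌊Real.exp t⌋ * ((Real.exp t : ℝ) : ℂ) =
      ∑ m ∈ Ioc N (N + n), a m + (F q * ((Real.exp y - q : ℝ) : ℂ) - F p * ((Real.exp y1 - p : ℝ) : ℂ)) := by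
    rw [hlp] at j1
    rw [hlq] at j2
    rw [← j1, ← j2, ← j3]
    have k1 := intervalIntegral.integral_add_adjacent_intervals (ii_exp F hF1 (Real.log p) y1)
      (ii_exp F hF1 y1 y)
    have k2 := intervalIntegral.integral_add_adjacent_intervals (ii_exp F hF1 (Real.log p) (Real.log q))
      (ii_exp F hF1 (Real.log q) y)
    rw [← k2] at k1
    linear_combination k1
  -- the density part
  have d1 : ∫ t in y1..y, 1 / t ^ e * Real.exp t =
      ∫ u in Real.exp y1..Real.exp y, 1 / (Real.log u) ^ e := by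
    have h := intervalIntegral.integral_comp_mul_deriv'' (a := y1) (b := y) (f := Real.exp) (f' := Real.exp)
      (g := fun u : ℝ => 1 / (Real.log u) ^ e) Real.continuous_exp.continuousOn
      (fun x _ => (Real.hasDerivAt_exp x).hasDerivWithinAt) Real.continuous_exp.continuousOn (by
        refine ContinuousOn.div continuousOn_const ?_ ?_
        · refine ContinuousOn.pow ?_ _
          refine Real.continuousOn_log.mono ?_
          rintro x ⟨t, _, rfl⟩
          simp only [Set.mem_compl_iff, Set.mem_singleton_iff]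
          exact (Real.exp_pos t).ne'
        · rintro x ⟨t, ht, rfl⟩
          rw [Set.uIcc_of_le h2] at ht
          rw [Real.log_exp]
          have : 0 < t := by linarith [ht.1]
          exact pow_ne_zero _ this.ne')
    rw [← h]
    refine intervalIntegral.integral_congr fun t _ => ?_
    simp [Real.log_exp]
  have hy1e : Real.exp 1 ≤ Real.exp y1 := Real.exp_le_exp.2 (by linarith)
  have hye : Real.exp 1 ≤ Real.exp y := Real.exp_le_exp.2 (by linarith)
  have hNe : Real.exp 1 ≤ (N : ℝ) := he1.trans hNhalf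
  have hN'e : Real.exp 1 ≤ ((N + n : ℕ) : ℝ) := by
    push_cast
    have : (0 : ℝ) ≤ n := Nat.cast_nonneg n
    linarith
  have hone : (1 : ℝ) < Real.exp 1 := by
    have := Real.add_one_lt_exp (x := 1) one_ne_zero
    linarith
  have d2 : ∫ u in Real.exp y1..Real.exp y, 1 / (Real.log u) ^ e =
      (∫ u in (N : ℝ)..((N + n : ℕ) : ℝ), 1 / (Real.log u) ^ e) +
      ((∫ u in Real.exp y1..(N : ℝ), 1 / (Real.log u) ^ e) +
        ∫ u in ((N + n : ℕ) : ℝ)..Real.exp y, 1 / (Real.log u) ^ e) := by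
    have k1 := intervalIntegral.integral_add_adjacent_intervals
      (ii_g e (Real.exp y1) N (by linarith) (by linarith)) (ii_g e N ((N + n : ℕ) : ℝ) (by linarith) (by linarith))
    have k2 := intervalIntegral.integral_add_adjacent_intervals
      (ii_g e (Real.exp y1) ((N + n : ℕ) : ℝ) (by linarith) (by linarith))
      (ii_g e ((N + n : ℕ) : ℝ) (Real.exp y) (by linarith) (by linarith))
    rw [← k2, ← k1]
    ring
  have d3 : |∫ u in Real.exp y1..(N : ℝ), 1 / (Real.log u) ^ e| ≤ |(b : ℝ)| + 2 := by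
    refine (g_int e _ _ hy1e hNe).trans ?_
    rw [hNr, abs_le]
    constructor <;> linarith
  have d4 : |∫ u in ((N + n : ℕ) : ℝ)..Real.exp y, 1 / (Real.log u) ^ e| ≤ |(b : ℝ)| + 2 := by
    refine (g_int e _ _ hN'e hye).trans ?_
    rw [hN'r, abs_le]
    constructor <;> linarith
  -- combine
  have hi2 : IntervalIntegrable (fun t : ℝ => 1 / t ^ e * Real.exp t) volume y1 y := by
    refine ContinuousOn.intervalIntegrable ?_
    refine ContinuousOn.mul ?_ Real.continuous_exp.continuousOn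
    rw [Set.uIcc_of_le h2]
    refine ContinuousOn.div continuousOn_const (continuousOn_id.pow _) ?_
    intro x hx
    have : 0 < x := by linarith [hx.1]
    exact pow_ne_zero _ this.ne'
  have hi3 : IntervalIntegrable (fun t : ℝ => ((1 / t ^ e * Real.exp t : ℝ) : ℂ)) volume y1 y :=
    ⟨hi2.1.ofReal, hi2.2.ofReal⟩
  have t1 : ∫ t in y1..y, (a (vl b (Real.exp t)) - ((1 / t ^ e : ℝ) : ℂ)) * ((Real.exp t : ℝ) : ℂ) =
      (∫ t in y1..y, F ⌊Real.exp t⌋ * ((Real.exp t : ℝ) : ℂ)) -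
        ((∫ t in y1..y, 1 / t ^ e * Real.exp t : ℝ) : ℂ) := by
    rw [← intervalIntegral.integral_ofReal, ← intervalIntegral.integral_sub (ii_exp F hF1 y1 y) hi3]
    refine intervalIntegral.integral_congr fun t _ => ?_
    simp only [hF, vl]
    push_cast
    ring
  obtain ⟨J, hJ⟩ : ∃ J : ℝ, J = ∫ u in (N : ℝ)..((N + n : ℕ) : ℝ), 1 / (Real.log u) ^ e := ⟨_, rfl⟩
  obtain ⟨J1, hJ1⟩ : ∃ J : ℝ, J = ∫ u in Real.exp y1..(N : ℝ), 1 / (Real.log u) ^ e := ⟨_, rfl⟩
  obtain ⟨J2, hJ2⟩ : ∃ J : ℝ, J = ∫ u in ((N + n : ℕ) : ℝ)..Real.exp y, 1 / (Real.log u) ^ e := ⟨_, rfl⟩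
  rw [← hJ, ← hJ1, ← hJ2] at d2
  rw [← hJ1] at d3
  rw [← hJ2] at d4
  rw [← hJ] at hB
  rw [t1, j4, d1, d2]
  have t2 : ∑ m ∈ Ioc N (N + n), a m + (F q * ((Real.exp y - q : ℝ) : ℂ) - F p * ((Real.exp y1 - p : ℝ) : ℂ)) -
      ((J + (J1 + J2) : ℝ) : ℂ) = (∑ m ∈ Ioc N (N + n), a m - (J : ℂ)) +
        ((F q * ((Real.exp y - q : ℝ) : ℂ) - F p * ((Real.exp y1 - p : ℝ) : ℂ)) - ((J1 + J2 : ℝ) : ℂ)) := by
    push_cast; ring
  rw [t2]
  have n1 : ‖F q * ((Real.exp y - q : ℝ) : ℂ)‖ ≤ 1 := by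
    rw [norm_mul, Complex.norm_real, Real.norm_eq_abs, abs_of_nonneg (by linarith)]
    calc ‖F q‖ * (Real.exp y - q) ≤ 1 * 1 :=
          mul_le_mul (hF1 q) (by linarith) (by linarith) zero_le_one
      _ = 1 := one_mul _
  have n2 : ‖F p * ((Real.exp y1 - p : ℝ) : ℂ)‖ ≤ 1 := by
    rw [norm_mul, Complex.norm_real, Real.norm_eq_abs, abs_of_nonneg (by linarith)]
    calc ‖F p‖ * (Real.exp y1 - p) ≤ 1 * 1 :=
          mul_le_mul (hF1 p) (by linarith) (by linarith) zero_le_one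
      _ = 1 := one_mul _
  have n3 : ‖((J1 + J2 : ℝ) : ℂ)‖ ≤ 2 * |(b : ℝ)| + 4 := by
    rw [Complex.norm_real, Real.norm_eq_abs]
    refine (abs_add_le _ _).trans ?_
    linarith
  have n4 : ‖(F q * ((Real.exp y - q : ℝ) : ℂ) - F p * ((Real.exp y1 - p : ℝ) : ℂ)) - ((J1 + J2 : ℝ) : ℂ)‖ ≤
      2 * |(b : ℝ)| + 6 := by
    refine (norm_sub_le _ _).trans ?_
    refine (add_le_add (norm_sub_le _ _) n3).trans ?_
    linarith
  refine (norm_add_le _ _).trans ?_
  refine (add_le_add hB n4).trans ?_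
  have m1 : k * |C| * ((N + n : ℕ) : ℝ) / (Real.log N) ^ K ≤ k * |C| * (2 * Real.exp y) / (Y / 2) ^ K := by
    gcongr
  have m2 : k * |C| * (2 * Real.exp y) / (Y / 2) ^ K = (k * |C| * 2 * 2 ^ K) * Real.exp y / Y ^ K := by
    rw [div_pow]
    field_simp
  have m3 : 1 ≤ K.factorial * Real.exp y / Y ^ K := by
    rw [le_div_iff₀ (by positivity), one_mul]
    have := Real.pow_div_factorial_le_exp Y hY0.le K
    rw [div_le_iff₀ (by positivity)] at this
    calc Y ^ K ≤ Real.exp Y * K.factorial := this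
      _ ≤ Real.exp y * K.factorial := by gcongr; linarith
      _ = K.factorial * Real.exp y := by ring
  have m4 : (2 * |(b : ℝ)| + 6) ≤ (2 * |(b : ℝ)| + 6) * K.factorial * Real.exp y / Y ^ K := by
    calc (2 * |(b : ℝ)| + 6) = (2 * |(b : ℝ)| + 6) * 1 := by ring
      _ ≤ (2 * |(b : ℝ)| + 6) * (K.factorial * Real.exp y / Y ^ K) := by gcongr
      _ = _ := by ring
  rw [m2] at m1
  calc k * |C| * ((N + n : ℕ) : ℝ) / (Real.log N) ^ K + (2 * |(b : ℝ)| + 6)
      ≤ (k * |C| * 2 * 2 ^ K) * Real.exp y / Y ^ K +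
        (2 * |(b : ℝ)| + 6) * K.factorial * Real.exp y / Y ^ K := add_le_add m1 m4
    _ = _ := by ring

/-- the integrand `(a(vl b e^t) - t^{-e}) e^t` -/
noncomputable def hh (a : ℕ → ℂ) (e : ℕ) (b : ℤ) (t : ℝ) : ℂ :=
  (a (vl b (Real.exp t)) - ((1 / t ^ e : ℝ) : ℂ)) * ((Real.exp t : ℝ) : ℂ)

theorem meas_hh (a : ℕ → ℂ) (e : ℕ) (b : ℤ) : Measurable (hh a e b) := by
  unfold hh
  refine Measurable.mul (Measurable.sub ?_ ?_) (Complex.measurable_ofReal.comp Real.measurable_exp)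
  · exact (measurable_from_top (f := fun n : ℤ => a ((n + b).toNat))).comp
      (Int.measurable_floor.comp Real.measurable_exp)
  · refine Complex.measurable_ofReal.comp ?_
    exact (measurable_const).div (measurable_id.pow_const _)

theorem ii_hh (a : ℕ → ℂ) (ha : ∀ n, ‖a n‖ ≤ 1) (e : ℕ) (b : ℤ) (p q : ℝ) (hp : 0 < p) (hq : 0 < q) :
    IntervalIntegrable (hh a e b) volume p q := by
  have hi2 : IntervalIntegrable (fun t : ℝ => 1 / t ^ e * Real.exp t) volume p q := by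
    refine ContinuousOn.intervalIntegrable ?_
    refine ContinuousOn.mul ?_ Real.continuous_exp.continuousOn
    refine ContinuousOn.div continuousOn_const (continuousOn_id.pow _) ?_
    intro x hx
    have h1 : min p q ≤ x := hx.1
    have h2 : 0 < min p q := lt_min hp hq
    have h3 : x ≠ 0 := by linarith
    exact pow_ne_zero _ h3
  have hi3 : IntervalIntegrable (fun t : ℝ => ((1 / t ^ e * Real.exp t : ℝ) : ℂ)) volume p q :=
    ⟨hi2.1.ofReal, hi2.2.ofReal⟩
  have h := (ii_exp (fun n : ℤ => a ((n + b).toNat)) (fun n => ha _) p q).sub hi3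
  refine h.congr (fun t _ => ?_)
  simp only [hh, vl]
  push_cast
  ring

theorem rc_hh (a : ℕ → ℂ) (e : ℕ) (b : ℤ) (x : ℝ) (hx : 0 < x) :
    ContinuousWithinAt (hh a e b) (Set.Ici x) x := by
  have h1 : ContinuousWithinAt (fun t : ℝ => a (vl b (Real.exp x)) - ((1 / t ^ e : ℝ) : ℂ)) (Set.Ici x) x := by
    refine ContinuousWithinAt.sub continuousWithinAt_const ?_
    exact ((pow_hd e x hx).ofReal_comp).continuousAt.continuousWithinAt
  have h2 : ContinuousWithinAt (fun t : ℝ => ((Real.exp t : ℝ) : ℂ)) (Set.Ici x) x :=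
    (Complex.continuous_ofReal.comp Real.continuous_exp).continuousWithinAt
  refine (h1.mul h2).congr_of_eventuallyEq ?_ rfl
  have hn : Real.exp x < ⌊Real.exp x⌋ + 1 := Int.lt_floor_add_one _
  have hpos : (0 : ℝ) < (⌊Real.exp x⌋ : ℤ) + 1 := (Real.exp_pos x).trans hn
  have hlt : x < Real.log ((⌊Real.exp x⌋ : ℤ) + 1) := by
    rw [Real.lt_log_iff_exp_lt hpos]; exact hn
  have hev : Set.Ico x (Real.log ((⌊Real.exp x⌋ : ℤ) + 1)) ∈ 𝓝[≥] x := Ico_mem_nhdsGE hlt
  filter_upwards [hev] with t ht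
  have e1 : ((⌊Real.exp x⌋ : ℤ) : ℝ) ≤ Real.exp t := (Int.floor_le _).trans (Real.exp_le_exp.2 ht.1)
  have e2 : Real.exp t < (⌊Real.exp x⌋ : ℤ) + 1 := by
    rw [← Real.lt_log_iff_exp_lt hpos]; exact ht.2
  have e3 : ⌊Real.exp t⌋ = ⌊Real.exp x⌋ := Int.floor_eq_iff.2 ⟨e1, e2⟩
  simp only [hh, vl, e3, Pi.mul_apply]

/-- integration by parts -/
theorem ibp (a : ℕ → ℂ) (ha : ∀ n, ‖a n‖ ≤ 1) (e : ℕ) (b : ℤ) (η y1 y2 : ℝ) (h0 : 0 < y1) (h12 : y1 ≤ y2) :
    ∫ y in y1..y2, (a (vl b (Real.exp y)) - ((1 / y ^ e : ℝ) : ℂ)) * er (-η) y =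
      ((Real.exp (-y2) : ℝ) : ℂ) * er (-η) y2 * (∫ t in y1..y2, hh a e b t) -
      ∫ y in y1..y2, (((-Real.exp (-y) : ℝ) : ℂ) * er (-η) y +
        ((Real.exp (-y) : ℝ) : ℂ) * (((-η : ℝ) : ℂ) * Complex.I * er (-η) y)) * (∫ t in y1..y, hh a e b t) := by
  have hexp : ∀ x : ℝ, HasDerivAt (fun y : ℝ => ((Real.exp (-y) : ℝ) : ℂ)) ((-Real.exp (-x) : ℝ) : ℂ) x := by
    intro x
    have h1 : HasDerivAt (fun y : ℝ => Real.exp (-y)) (Real.exp (-x) * (-1)) x :=
      (hasDerivAt_neg x).exp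
    have h := h1.ofReal_comp
    convert h using 1
    push_cast
    ring
  have hW : ∀ x : ℝ, HasDerivAt (fun y : ℝ => ((Real.exp (-y) : ℝ) : ℂ) * er (-η) y)
      (((-Real.exp (-x) : ℝ) : ℂ) * er (-η) x +
        ((Real.exp (-x) : ℝ) : ℂ) * (((-η : ℝ) : ℂ) * Complex.I * er (-η) x)) x := by
    intro x
    exact (hexp x).mul (hd_er (-η) x)
  have hIcc : Set.uIcc y1 y2 = Set.Icc y1 y2 := Set.uIcc_of_le h12
  have h := intervalIntegral.integral_mul_deriv_eq_deriv_mul_of_hasDeriv_right (a := y1) (b := y2)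
    (u := fun y : ℝ => ((Real.exp (-y) : ℝ) : ℂ) * er (-η) y)
    (v := fun y : ℝ => ∫ t in y1..y, hh a e b t)
    (u' := fun x : ℝ => ((-Real.exp (-x) : ℝ) : ℂ) * er (-η) x +
        ((Real.exp (-x) : ℝ) : ℂ) * (((-η : ℝ) : ℂ) * Complex.I * er (-η) x))
    (v' := hh a e b)
    (fun x _ => (hW x).continuousAt.continuousWithinAt)
    (by
      refine intervalIntegral.continuousOn_primitive_interval ?_
      have := ii_hh a ha e b y1 y2 h0 (by linarith)
      rw [intervalIntegrable_iff'] at this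
      exact this)
    (fun x _ => (hW x).hasDerivWithinAt)
    (by
      intro x hx
      rw [min_eq_left h12, max_eq_right h12] at hx
      have hx0 : 0 < x := h0.trans hx.1
      have := intervalIntegral.integral_hasDerivWithinAt_right (a := y1) (b := x) (f := hh a e b)
        (ii_hh a ha e b y1 x h0 hx0) (s := Set.Ici x) (t := Set.Ioi x)
        ((meas_hh a e b).stronglyMeasurable.stronglyMeasurableAtFilter)
        ((rc_hh a e b x hx0).mono Set.Ioi_subset_Ici_self)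
      exact this.mono Set.Ioi_subset_Ici_self)
    (by
      refine Continuous.intervalIntegrable ?_ _ _
      have c1 := cont_er (-η)
      fun_prop)
    (ii_hh a ha e b y1 y2 h0 (by linarith))
  rw [intervalIntegral.integral_same, mul_zero, sub_zero] at h
  rw [← h]
  refine intervalIntegral.integral_congr fun y _ => ?_
  simp only [hh]
  have e1 : ((Real.exp (-y) : ℝ) : ℂ) * ((Real.exp y : ℝ) : ℂ) = 1 := by
    rw [← Complex.ofReal_mul, ← Real.exp_add]; simp
  calc (a (vl b (Real.exp y)) - ((1 / y ^ e : ℝ) : ℂ)) * er (-η) y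
      = (((Real.exp (-y) : ℝ) : ℂ) * ((Real.exp y : ℝ) : ℂ)) *
        ((a (vl b (Real.exp y)) - ((1 / y ^ e : ℝ) : ℂ)) * er (-η) y) := by rw [e1, one_mul]
    _ = _ := by ring

theorem f0 : S_F0 := by
  intro a e hW b K K1 R hR
  obtain ⟨D, Y0, hD, hY0, hB⟩ := B_bound a e hW b (K + K1) R
  refine ⟨D * (1 + 2 * R) + 2 * R * Y0 ^ K, ?_⟩
  intro Y y1 y2 η hY h1 h12 h2 hη
  have hYp : 0 < Y := by linarith
  have hR2 : y2 - y1 ≤ R := by linarith
  rcases lt_or_ge Y Y0 with hs | hb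
  · -- small `Y`
    have hn : ‖∫ y in y1..y2, (a (vl b (Real.exp y)) - ((1 / y ^ e : ℝ) : ℂ)) * er (-η) y‖ ≤ 2 * |y2 - y1| := by
      refine intervalIntegral.norm_integral_le_of_norm_le_const ?_
      intro x hx
      rw [Set.uIoc_of_le h12] at hx
      have hx1 : 1 ≤ x := by linarith [hx.1]
      rw [norm_mul, nrm_er, mul_one]
      refine (norm_sub_le _ _).trans ?_
      have e1 : ‖((1 / x ^ e : ℝ) : ℂ)‖ ≤ 1 := by
        rw [Complex.norm_real, Real.norm_eq_abs, abs_of_nonneg (by positivity), div_le_one (by positivity)]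
        exact one_le_pow₀ hx1
      have := hW.le_one (vl b (Real.exp x))
      linarith
    refine hn.trans ?_
    rw [abs_of_nonneg (by linarith), le_div_iff₀ (by positivity)]
    calc 2 * (y2 - y1) * Y ^ K ≤ 2 * R * Y0 ^ K := by gcongr
      _ ≤ D * (1 + 2 * R) + 2 * R * Y0 ^ K := by
        have : 0 ≤ D * (1 + 2 * R) := by positivity
        linarith
  · rw [ibp a hW.le_one e b η y1 y2 (by linarith) h12]
    have hBy : ∀ y ∈ Set.Icc y1 y2, ‖∫ t in y1..y, hh a e b t‖ ≤ D * Real.exp y / Y ^ (K + K1) := by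
      intro y hy
      exact hB Y y1 y hb h1 hy.1 (hy.2.trans h2)
    have i1 : ‖((Real.exp (-y2) : ℝ) : ℂ) * er (-η) y2 * (∫ t in y1..y2, hh a e b t)‖ ≤ D / Y ^ (K + K1) := by
      rw [norm_mul, norm_mul, nrm_er, mul_one, Complex.norm_real, Real.norm_eq_abs, abs_of_pos (Real.exp_pos _)]
      calc Real.exp (-y2) * ‖∫ t in y1..y2, hh a e b t‖
          ≤ Real.exp (-y2) * (D * Real.exp y2 / Y ^ (K + K1)) := by
            gcongr; exact hBy y2 ⟨h12, le_rfl⟩
        _ = (Real.exp (-y2) * Real.exp y2) * (D / Y ^ (K + K1)) := by ring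
        _ = D / Y ^ (K + K1) := by rw [← Real.exp_add]; simp
    have i2 : ‖∫ y in y1..y2, (((-Real.exp (-y) : ℝ) : ℂ) * er (-η) y +
        ((Real.exp (-y) : ℝ) : ℂ) * (((-η : ℝ) : ℂ) * Complex.I * er (-η) y)) * (∫ t in y1..y, hh a e b t)‖ ≤
        (1 + |η|) * (D / Y ^ (K + K1)) * |y2 - y1| := by
      refine intervalIntegral.norm_integral_le_of_norm_le_const ?_
      intro x hx
      rw [Set.uIoc_of_le h12] at hx
      rw [norm_mul]
      have e1 : ‖((-Real.exp (-x) : ℝ) : ℂ) * er (-η) x +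
        ((Real.exp (-x) : ℝ) : ℂ) * (((-η : ℝ) : ℂ) * Complex.I * er (-η) x)‖ ≤ (1 + |η|) * Real.exp (-x) := by
        refine (norm_add_le _ _).trans ?_
        rw [norm_mul, norm_mul, norm_mul, norm_mul, nrm_er, Complex.norm_I, Complex.norm_real, Complex.norm_real,
          Complex.norm_real, Real.norm_eq_abs, Real.norm_eq_abs, Real.norm_eq_abs, abs_neg, abs_neg,
          abs_of_pos (Real.exp_pos _)]
        apply le_of_eq
        ring
      calc _ ≤ ((1 + |η|) * Real.exp (-x)) * (D * Real.exp x / Y ^ (K + K1)) :=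
            mul_le_mul e1 (hBy x ⟨hx.1.le, hx.2⟩) (norm_nonneg _) (by positivity)
        _ = (Real.exp (-x) * Real.exp x) * ((1 + |η|) * (D / Y ^ (K + K1))) := by ring
        _ = (1 + |η|) * (D / Y ^ (K + K1)) := by rw [← Real.exp_add]; simp
    refine (norm_sub_le _ _).trans ?_
    refine (add_le_add i1 i2).trans ?_
    rw [abs_of_nonneg (by linarith : 0 ≤ y2 - y1)]
    have hpw : 1 ≤ Y ^ K1 := one_le_pow₀ hY
    have e3 : D / Y ^ (K + K1) + (1 + |η|) * (D / Y ^ (K + K1)) * (y2 - y1) ≤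
        D / Y ^ (K + K1) * Y ^ K1 + (Y ^ K1 + Y ^ K1) * (D / Y ^ (K + K1)) * R := by
      have hDp : 0 ≤ D / Y ^ (K + K1) := by positivity
      refine add_le_add (le_mul_of_one_le_right hDp hpw) ?_
      gcongr
    refine e3.trans ?_
    have e4 : D / Y ^ (K + K1) * Y ^ K1 + (Y ^ K1 + Y ^ K1) * (D / Y ^ (K + K1)) * R =
        D * (1 + 2 * R) / Y ^ K := by
      rw [pow_add]
      field_simp
      ring
    rw [e4]
    gcongr
    have : 0 ≤ 2 * R * Y0 ^ K := by positivity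
    linarith

end Pool.Agent.N539.T
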