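import Pool.Agent.N798.T.Stm

set_option autoImplicit false

/-!
Project T, task FD: decay of the Fourier transforms of the step functions.
-/

namespace Pool.Agent.N539.T

open Finset MeasureTheory Filter Topology
open scoped ENNReal
open Pool.Agent.H376R2.MR (er)
open Pool.Agent.N798.T

theorem nrm_er (τ x : ℝ) : ‖er τ x‖ = 1 := by
  unfold er
  rw [Complex.norm_exp_ofReal_mul_I]

theorem er_zero (x : ℝ) : er 0 x = 1 := by
  unfold er
  simp

theorem cont_er (τ : ℝ) : Continuous (er τ) := by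
  unfold er
  fun_prop

theorem hd_er (τ x : ℝ) : HasDerivAt (er τ) ((τ : ℂ) * Complex.I * er τ x) x := by
  have h1 : HasDerivAt (fun y : ℝ => ((τ * y : ℝ) : ℂ) * Complex.I) ((τ : ℂ) * Complex.I) x := by
    have h2 : HasDerivAt (fun y : ℝ => τ * y) τ x := by
      simpa using (hasDerivAt_id x).const_mul τ
    exact h2.ofReal_comp.mul_const _
  have h3 := h1.cexp
  unfold er
  convert h3 using 1
  ring

/-- an antiderivative of `er η` -/
noncomputable def ea (η x : ℝ) : ℂ := er η x / ((η : ℂ) * Complex.I)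

theorem hd_ea (η x : ℝ) (hη : η ≠ 0) : HasDerivAt (ea η) (er η x) x := by
  have h := (hd_er η x).div_const ((η : ℂ) * Complex.I)
  have h0 : (η : ℂ) * Complex.I ≠ 0 := by
    simp [hη]
  rw [mul_div_cancel_left₀ _ h0] at h
  exact h

theorem nrm_ea (η x : ℝ) : ‖ea η x‖ = 1 / |η| := by
  unfold ea
  rw [norm_div, nrm_er, norm_mul, Complex.norm_I, mul_one, Complex.norm_real, Real.norm_eq_abs]

theorem int_er (η p q : ℝ) (hη : η ≠ 0) : ‖∫ y in p..q, er η y‖ ≤ 2 / |η| := by
  have h : ∫ y in p..q, er η y = ea η q - ea η p :=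
    intervalIntegral.integral_eq_sub_of_hasDerivAt (fun x _ => hd_ea η x hη)
      ((cont_er η).intervalIntegrable _ _)
  rw [h]
  calc ‖ea η q - ea η p‖ ≤ ‖ea η q‖ + ‖ea η p‖ := norm_sub_le _ _
    _ = 2 / |η| := by rw [nrm_ea, nrm_ea]; ring

theorem ii_step (f : ℤ → ℂ) (hf : ∀ n, ‖f n‖ ≤ 1) (η p q : ℝ) :
    IntervalIntegrable (fun y => f ⌊Real.exp y⌋ * er η y) volume p q := by
  have hm : Measurable (fun y : ℝ => f ⌊Real.exp y⌋ * er η y) := by
    refine Measurable.mul ?_ (cont_er η).measurable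
    exact (measurable_from_top (f := f)).comp (Int.measurable_floor.comp Real.measurable_exp)
  have hc : IntervalIntegrable (fun _ : ℝ => (1 : ℝ)) volume p q := intervalIntegrable_const
  refine hc.mono_fun hm.aestronglyMeasurable ?_
  refine Filter.Eventually.of_forall fun y => ?_
  simp only [norm_mul, nrm_er, mul_one, norm_one]
  exact hf _

/-- on an interval without a cut the integral is at most `2 / |η|` -/
theorem one_piece (f : ℤ → ℂ) (hf : ∀ n, ‖f n‖ ≤ 1) (η p q : ℝ) (hη : η ≠ 0) (hpq : p ≤ q)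
    (n : ℤ) (h1 : (n : ℝ) ≤ Real.exp p) (h2 : Real.exp q ≤ n + 1) :
    ‖∫ y in p..q, f ⌊Real.exp y⌋ * er η y‖ ≤ 2 / |η| := by
  have hcg : ∫ y in p..q, f ⌊Real.exp y⌋ * er η y = ∫ y in p..q, f n * er η y := by
    rw [intervalIntegral.integral_of_le hpq, intervalIntegral.integral_of_le hpq,
      integral_Ioc_eq_integral_Ioo, integral_Ioc_eq_integral_Ioo]
    refine setIntegral_congr_fun measurableSet_Ioo fun y hy => ?_
    have e1 : (n : ℝ) ≤ Real.exp y := h1.trans (Real.exp_le_exp.2 hy.1.le)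
    have e2 : Real.exp y < n + 1 := lt_of_lt_of_le (Real.exp_lt_exp.2 hy.2) h2
    have e3 : ⌊Real.exp y⌋ = n := Int.floor_eq_iff.2 ⟨e1, e2⟩
    simp only [e3]
  rw [hcg, intervalIntegral.integral_const_mul, norm_mul]
  have h3 := int_er η p q hη
  have h4 : (0 : ℝ) ≤ 2 / |η| := by positivity
  calc ‖f n‖ * ‖∫ y in p..q, er η y‖ ≤ 1 * (2 / |η|) :=
        mul_le_mul (hf n) h3 (norm_nonneg _) zero_le_one
    _ = 2 / |η| := one_mul _

theorem pieces (f : ℤ → ℂ) (hf : ∀ n, ‖f n‖ ≤ 1) (η : ℝ) (hη : η ≠ 0) (p : ℝ) (n : ℤ) (hn : 0 ≤ n)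
    (h1 : (n : ℝ) ≤ Real.exp p) : ∀ (k : ℕ) (q : ℝ), p ≤ q → Real.exp q ≤ n + k + 1 →
    ‖∫ y in p..q, f ⌊Real.exp y⌋ * er η y‖ ≤ 2 * (k + 1) / |η| := by
  intro k
  induction k with
  | zero =>
    intro q hpq h2
    have := one_piece f hf η p q hη hpq n h1 (by push_cast at h2; linarith)
    simpa using this
  | succ k ih =>
    intro q hpq h2
    have h4 : (0 : ℝ) ≤ 2 / |η| := by positivity
    rcases le_or_gt (Real.exp q) (n + k + 1) with h | h
    · have := ih q hpq h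
      refine this.trans ?_
      have e : 2 * (((k + 1 : ℕ) : ℝ) + 1) / |η| = 2 * ((k : ℝ) + 1) / |η| + 2 / |η| := by
        push_cast; ring
      rw [e]
      linarith
    · have hpos : (0 : ℝ) < n + k + 1 := by
        have : (0 : ℝ) ≤ n := by exact_mod_cast hn
        positivity
      rcases le_or_gt (Real.exp p) (n + k + 1) with hp | hp
      · set c := Real.log (n + k + 1) with hc
        have hec : Real.exp c = n + k + 1 := Real.exp_log hpos
        have hpc : p ≤ c := by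
          rw [← Real.exp_le_exp, hec]; exact hp
        have hcq : c ≤ q := by
          rw [← Real.exp_le_exp, hec]; exact h.le
        have i1 := ih c hpc (le_of_eq hec)
        have i2 := one_piece f hf η c q hη hcq (n + k + 1) (by rw [hec]; push_cast; rfl)
          (by push_cast at h2 ⊢; linarith)
        rw [← intervalIntegral.integral_add_adjacent_intervals (ii_step f hf η p c) (ii_step f hf η c q)]
        refine (norm_add_le _ _).trans ?_
        have e : 2 * (((k + 1 : ℕ) : ℝ) + 1) / |η| = 2 * ((k : ℝ) + 1) / |η| + 2 / |η| := by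
          push_cast; ring
        rw [e]
        linarith
      · have i2 := one_piece f hf η p q hη hpq (n + k + 1) (by push_cast; exact hp.le)
          (by push_cast at h2 ⊢; linarith)
        refine i2.trans ?_
        have e : 2 * (((k + 1 : ℕ) : ℝ) + 1) / |η| = 2 * ((k : ℝ) + 1) / |η| + 2 / |η| := by
          push_cast; ring
        rw [e]
        have : (0 : ℝ) ≤ 2 * ((k : ℝ) + 1) / |η| := by positivity
        linarith

theorem step_bd (f : ℤ → ℂ) (hf : ∀ n, ‖f n‖ ≤ 1) (η : ℝ) (hη : η ≠ 0) (p q : ℝ) (hpq : p ≤ q) :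
    ‖∫ y in p..q, f ⌊Real.exp y⌋ * er η y‖ ≤ 2 * (Real.exp q + 1) / |η| := by
  have hn : (0 : ℤ) ≤ ⌊Real.exp p⌋ := Int.floor_nonneg.2 (Real.exp_pos p).le
  have h1 : ((⌊Real.exp p⌋ : ℤ) : ℝ) ≤ Real.exp p := Int.floor_le _
  have h2 : Real.exp q ≤ (⌊Real.exp p⌋ : ℤ) + (⌊Real.exp q⌋₊ : ℕ) + 1 := by
    have e1 : Real.exp q < (⌊Real.exp q⌋₊ : ℕ) + 1 := Nat.lt_floor_add_one _
    have e2 : (0 : ℝ) ≤ (⌊Real.exp p⌋ : ℤ) := by exact_mod_cast hn
    linarith
  have h := pieces f hf η hη p ⌊Real.exp p⌋ hn h1 ⌊Real.exp q⌋₊ q hpq h2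
  refine h.trans ?_
  have e3 : ((⌊Real.exp q⌋₊ : ℕ) : ℝ) ≤ Real.exp q := Nat.floor_le (Real.exp_pos q).le
  gcongr

theorem pow_hd (e : ℕ) (y : ℝ) (hy : 0 < y) :
    HasDerivAt (fun t : ℝ => 1 / t ^ e) (-(e : ℝ) / y ^ (e + 1)) y := by
  have h1 : HasDerivAt (fun t : ℝ => t ^ e) ((e : ℝ) * y ^ (e - 1)) y := hasDerivAt_pow e y
  have h2 := h1.inv (pow_ne_zero e hy.ne')
  have h3 : HasDerivAt (fun t : ℝ => 1 / t ^ e) (-((e : ℝ) * y ^ (e - 1)) / (y ^ e) ^ 2) y := by
    refine h2.congr_of_eventuallyEq ?_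
    refine Filter.Eventually.of_forall fun t => ?_
    simp [one_div]
  convert h3 using 1
  rcases Nat.eq_zero_or_pos e with he | he
  · subst he; simp
  · obtain ⟨k, rfl⟩ := Nat.exists_eq_succ_of_ne_zero he.ne'
    have : y ≠ 0 := hy.ne'
    simp only [Nat.succ_eq_add_one, Nat.add_sub_cancel]
    field_simp
    ring

theorem dens_bd (e : ℕ) (η : ℝ) (hη : η ≠ 0) (p q : ℝ) (hp : 1 ≤ p) (hpq : p ≤ q) :
    ‖∫ y in p..q, ((1 / y ^ e : ℝ) : ℂ) * er η y‖ ≤ 2 / |η| := by
  have hηp : 0 < |η| := abs_pos.2 hη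
  have hu : ∀ x ∈ Set.uIcc p q, HasDerivAt (fun t : ℝ => ((1 / t ^ e : ℝ) : ℂ))
      ((-(e : ℝ) / x ^ (e + 1) : ℝ) : ℂ) x := by
    intro x hx
    rw [Set.uIcc_of_le hpq] at hx
    exact (pow_hd e x (by linarith [hx.1])).ofReal_comp
  have hv : ∀ x ∈ Set.uIcc p q, HasDerivAt (ea η) (er η x) x := fun x _ => hd_ea η x hη
  have hcr : ContinuousOn (fun x : ℝ => -(e : ℝ) / x ^ (e + 1)) (Set.uIcc p q) := by
    rw [Set.uIcc_of_le hpq]
    refine ContinuousOn.div continuousOn_const (continuousOn_id.pow _) ?_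
    intro x hx
    have : 0 < x := by linarith [hx.1]
    exact pow_ne_zero _ this.ne'
  have hu' : IntervalIntegrable (fun x : ℝ => ((-(e : ℝ) / x ^ (e + 1) : ℝ) : ℂ)) volume p q := by
    refine ContinuousOn.intervalIntegrable ?_
    exact Complex.continuous_ofReal.comp_continuousOn hcr
  have hv' : IntervalIntegrable (er η) volume p q := (cont_er η).intervalIntegrable _ _
  rw [intervalIntegral.integral_mul_deriv_eq_deriv_mul hu hv hu' hv']
  have hx : ∀ x : ℝ, 1 ≤ x → 0 ≤ 1 / x ^ e ∧ 1 / x ^ e ≤ 1 := by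
    intro x hx
    have : (1 : ℝ) ≤ x ^ e := one_le_pow₀ hx
    refine ⟨by positivity, ?_⟩
    rw [div_le_one (by positivity)]
    exact this
  have hq : 1 ≤ q := hp.trans hpq
  have n1 : ‖((1 / q ^ e : ℝ) : ℂ) * ea η q‖ = 1 / q ^ e * (1 / |η|) := by
    rw [norm_mul, nrm_ea, Complex.norm_real, Real.norm_eq_abs, abs_of_nonneg (hx q hq).1]
  have n2 : ‖((1 / p ^ e : ℝ) : ℂ) * ea η p‖ = 1 / p ^ e * (1 / |η|) := by
    rw [norm_mul, nrm_ea, Complex.norm_real, Real.norm_eq_abs, abs_of_nonneg (hx p hp).1]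
  have n3 : ‖∫ x in p..q, ((-(e : ℝ) / x ^ (e + 1) : ℝ) : ℂ) * ea η x‖ ≤
      (1 / p ^ e - 1 / q ^ e) * (1 / |η|) := by
    refine (intervalIntegral.norm_integral_le_integral_norm hpq).trans ?_
    have e1 : ∫ x in p..q, ‖((-(e : ℝ) / x ^ (e + 1) : ℝ) : ℂ) * ea η x‖ =
        ∫ x in p..q, (-(1 / |η|)) * (-(e : ℝ) / x ^ (e + 1)) := by
      refine intervalIntegral.integral_congr fun x hx => ?_
      rw [Set.uIcc_of_le hpq] at hx
      have hx0 : 0 < x := by linarith [hx.1]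
      show ‖((-(e : ℝ) / x ^ (e + 1) : ℝ) : ℂ) * ea η x‖ = (-(1 / |η|)) * (-(e : ℝ) / x ^ (e + 1))
      rw [norm_mul, nrm_ea, Complex.norm_real, Real.norm_eq_abs]
      have : -(e : ℝ) / x ^ (e + 1) ≤ 0 := by
        rw [neg_div]
        have : 0 ≤ (e : ℝ) / x ^ (e + 1) := by positivity
        linarith
      rw [abs_of_nonpos this]
      ring
    rw [e1, intervalIntegral.integral_const_mul]
    have e2 : ∫ x in p..q, (-(e : ℝ) / x ^ (e + 1)) = 1 / q ^ e - 1 / p ^ e := by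
      refine intervalIntegral.integral_eq_sub_of_hasDerivAt (f := fun t : ℝ => 1 / t ^ e) ?_ ?_
      · intro x hx
        rw [Set.uIcc_of_le hpq] at hx
        exact pow_hd e x (by linarith [hx.1])
      · exact hcr.intervalIntegrable
    rw [e2]
    apply le_of_eq
    ring
  refine (norm_sub_le _ _).trans ?_
  refine (add_le_add (norm_sub_le _ _) n3).trans ?_
  rw [n1, n2]
  have := (hx p hp).2
  have h5 : 0 < 1 / |η| := by positivity
  have h6 : 1 / q ^ e * (1 / |η|) + 1 / p ^ e * (1 / |η|) + (1 / p ^ e - 1 / q ^ e) * (1 / |η|)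
      = 2 * (1 / p ^ e) * (1 / |η|) := by ring
  rw [h6]
  calc 2 * (1 / p ^ e) * (1 / |η|) ≤ 2 * 1 * (1 / |η|) := by gcongr
    _ = 2 / |η| := by ring

theorem fd : S_FD := by
  intro a b e ha y1 y2 τ η h1 h12 hη
  have hη0 : -η ≠ 0 := by
    intro h
    have : η = 0 := by linarith
    rw [this] at hη
    simp at hη
  have hab : |(-η)| = |η| := abs_neg η
  constructor
  · have h := step_bd (fun n => a ((n + b).toNat) * er τ (Real.log (((n + b).toNat : ℕ) : ℝ)))
      (fun n => by rw [norm_mul, nrm_er, mul_one]; exact ha _) (-η) hη0 y1 y2 h12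
    rw [hab] at h
    exact h
  · have h := step_bd (fun n => a ((n + b).toNat)) (fun n => ha _) (-η) hη0 y1 y2 h12
    have h' := dens_bd e (-η) hη0 y1 y2 h1 h12
    rw [hab] at h h'
    have hi1 := ii_step (fun n => a ((n + b).toNat)) (fun n => ha _) (-η) y1 y2
    have hi2 : IntervalIntegrable (fun y : ℝ => ((1 / y ^ e : ℝ) : ℂ) * er (-η) y) volume y1 y2 := by
      refine ContinuousOn.intervalIntegrable ?_
      refine ContinuousOn.mul (Complex.continuous_ofReal.comp_continuousOn ?_) (cont_er _).continuousOn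
      rw [Set.uIcc_of_le h12]
      refine ContinuousOn.div continuousOn_const (continuousOn_id.pow _) ?_
      intro x hx
      have : 0 < x := by linarith [hx.1]
      exact pow_ne_zero _ this.ne'
    have hs : ∫ y in y1..y2, (a (vl b (Real.exp y)) - ((1 / y ^ e : ℝ) : ℂ)) * er (-η) y =
        (∫ y in y1..y2, (fun n : ℤ => a ((n + b).toNat)) ⌊Real.exp y⌋ * er (-η) y) -
          ∫ y in y1..y2, ((1 / y ^ e : ℝ) : ℂ) * er (-η) y := by
      rw [← intervalIntegral.integral_sub hi1 hi2]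
      refine intervalIntegral.integral_congr fun y _ => ?_
      simp only [vl]
      ring
    rw [hs]
    refine (norm_sub_le _ _).trans ?_
    have e1 : (2 * (Real.exp y2 + 1) + 4) / |η| = 2 * (Real.exp y2 + 1) / |η| + 2 / |η| + 2 / |η| := by
      ring
    rw [e1]
    have : (0 : ℝ) ≤ 2 / |η| := by positivity
    linarith

end Pool.Agent.N539.T
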